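import Pool.Agent.helper95.FJ.SpecE

/-!
# Project fj (MP_ad8ced_nt), row RDP (helper29): the reduction
-/

set_option autoImplicit false

open Finset

noncomputable section

namespace Pool.Agent.FJ

open Pool.Agent.FI

private theorem RDP_asy (η : ℝ) (hη : 0 < η) (k : ℕ) : ∃ N₀ : ℕ, ∀ N : ℕ, N₀ ≤ N →
    Real.log N ^ k ≤ (N : ℝ) ^ (2 * η) ∧ 32 ≤ (N : ℝ) ^ (η / 4) ∧ 24 ≤ Real.log N := by
  have h1 := (isLittleO_log_rpow_rpow_atTop (k : ℝ) (show 0 < 2 * η by positivity)).bound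
    (show (0 : ℝ) < 1 by norm_num)
  have h2 := (tendsto_rpow_atTop (show 0 < η / 4 by positivity)).eventually_ge_atTop 32
  have h3 := Real.tendsto_log_atTop.eventually_ge_atTop 24
  have h4 := tendsto_natCast_atTop_atTop (R := ℝ) |>.eventually (h1.and (h2.and h3))
  obtain ⟨N₀, h5⟩ := Filter.eventually_atTop.1 h4
  refine ⟨N₀, fun N hN => ?_⟩
  obtain ⟨h6, h7, h8⟩ := h5 N hN
  refine ⟨?_, h7, h8⟩
  rw [one_mul, Real.rpow_natCast, Real.norm_of_nonneg (by positivity),
    Real.norm_of_nonneg (by positivity)] at h6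
  exact h6

private theorem RDP_H (U : ℕ) : ∑ e ∈ Icc 1 U, (1 : ℝ) / e ≤ 1 + Real.log U := by
  have h1 := harmonic_le_one_add_log U
  rw [harmonic_eq_sum_Icc] at h1
  push_cast at h1
  simpa [one_div] using h1

private theorem RDP_div {d U : ℕ} (hd : d ∈ Icc 1 U) :
    (#d.divisors : ℝ) = ∑ e ∈ Icc 1 U, if e ∣ d then (1 : ℝ) else 0 := by
  rw [mem_Icc] at hd
  have h1 : d.divisors = (Icc 1 U).filter fun e => e ∣ d := by
    ext e
    rw [mem_filter, Nat.mem_divisors, mem_Icc]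
    constructor
    · rintro ⟨h2, h3⟩
      exact ⟨⟨Nat.pos_of_dvd_of_pos h2 (by omega), (Nat.le_of_dvd (by omega) h2).trans hd.2⟩, h2⟩
    · rintro ⟨_, h2⟩
      exact ⟨h2, by omega⟩
  rw [h1, ← Finset.sum_filter, Finset.sum_const, nsmul_eq_mul, mul_one]

private theorem RDP_tau (U : ℕ) : ∑ d ∈ Icc 1 U, (#d.divisors : ℝ) / d ≤ (1 + Real.log U) ^ 2 ∧
    ∑ d ∈ Icc 1 U, (#d.divisors : ℝ) ≤ U * (1 + Real.log U) := by
  have hH := RDP_H U
  have hH0 : 0 ≤ ∑ e ∈ Icc 1 U, (1 : ℝ) / e := Finset.sum_nonneg fun e _ => by positivity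
  constructor
  · have h1 : ∑ d ∈ Icc 1 U, (#d.divisors : ℝ) / d =
        ∑ e ∈ Icc 1 U, ∑ d ∈ Icc 1 U with e ∣ d, (1 : ℝ) / d := by
      have h2 : ∀ d ∈ Icc 1 U, (#d.divisors : ℝ) / d =
          ∑ e ∈ Icc 1 U, if e ∣ d then (1 : ℝ) / d else 0 := by
        intro d hd
        rw [RDP_div hd, Finset.sum_div]
        refine Finset.sum_congr rfl fun e _ => ?_
        split_ifs <;> simp
      rw [Finset.sum_congr rfl h2, Finset.sum_comm]
      refine Finset.sum_congr rfl fun e _ => ?_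
      rw [Finset.sum_filter]
    rw [h1]
    have h3 : ∀ e ∈ Icc 1 U, ∑ d ∈ Icc 1 U with e ∣ d, (1 : ℝ) / d ≤
        (1 / e) * ∑ f ∈ Icc 1 U, (1 : ℝ) / f := by
      intro e he
      rw [mem_Icc] at he
      have h4 : (Icc 1 U).filter (fun d => e ∣ d) ⊆ (Icc 1 U).image fun f => e * f := by
        intro d hd
        rw [mem_filter, mem_Icc] at hd
        obtain ⟨⟨h5, h6⟩, f, rfl⟩ := hd
        rw [mem_image]
        refine ⟨f, ?_, rfl⟩
        rw [mem_Icc]
        constructor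
        · rcases Nat.eq_zero_or_pos f with h | h
          · rw [h, mul_zero] at h5
            omega
          · exact h
        · exact (Nat.le_mul_of_pos_left f (by omega)).trans h6
      refine (Finset.sum_le_sum_of_subset_of_nonneg h4 fun _ _ _ => by positivity).trans ?_
      rw [Finset.sum_image (fun a _ b _ h => Nat.eq_of_mul_eq_mul_left (by omega) h), Finset.mul_sum]
      refine Finset.sum_le_sum fun f _ => ?_
      rw [Nat.cast_mul, one_div_mul_one_div]
    refine (Finset.sum_le_sum h3).trans ?_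
    rw [← Finset.sum_mul]
    nlinarith
  · have h1 : ∑ d ∈ Icc 1 U, (#d.divisors : ℝ) =
        ∑ e ∈ Icc 1 U, ∑ d ∈ Icc 1 U with e ∣ d, (1 : ℝ) := by
      rw [Finset.sum_congr rfl fun d hd => RDP_div hd, Finset.sum_comm]
      refine Finset.sum_congr rfl fun e _ => ?_
      rw [Finset.sum_filter]
    rw [h1]
    have h3 : ∀ e ∈ Icc 1 U, ∑ d ∈ Icc 1 U with e ∣ d, (1 : ℝ) ≤ U * (1 / e) := by
      intro e he
      rw [mem_Icc] at he
      have h4 : (Icc 1 U).filter (fun d => e ∣ d) ⊆ (Icc 1 (U / e)).image fun f => e * f := by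
        intro d hd
        rw [mem_filter, mem_Icc] at hd
        obtain ⟨⟨h5, h6⟩, f, rfl⟩ := hd
        rw [mem_image]
        refine ⟨f, ?_, rfl⟩
        rw [mem_Icc]
        constructor
        · rcases Nat.eq_zero_or_pos f with h | h
          · rw [h, mul_zero] at h5
            omega
          · exact h
        · rw [Nat.le_div_iff_mul_le (by omega), mul_comm]
          exact h6
      rw [Finset.sum_const, nsmul_eq_mul, mul_one]
      have h5 : #((Icc 1 U).filter (fun d => e ∣ d)) ≤ U / e := by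
        refine (Finset.card_le_card h4).trans (Finset.card_image_le.trans ?_)
        rw [Nat.card_Icc, Nat.add_sub_cancel]
      have h6 : (#((Icc 1 U).filter (fun d => e ∣ d)) : ℝ) ≤ ((U / e : ℕ) : ℝ) := by
        exact_mod_cast h5
      refine h6.trans (Nat.cast_div_le.trans ?_)
      rw [mul_one_div]
    refine (Finset.sum_le_sum h3).trans ?_
    rw [← Finset.mul_sum]
    exact mul_le_mul_of_nonneg_left hH (Nat.cast_nonneg U)

private theorem RDP_nn (x A : ℕ) (hA : A ≤ x) (ζ : ℤ × ℤ) (hζ : ζ ∈ PZ x A) :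
    x < nn ζ ∧ nn ζ ≤ 32 * x ^ 2 ∧ nn ζ % 2 = 1 := by
  classical
  unfold PZ at hζ
  rw [mem_filter, mem_product, mem_Icc, mem_Ioc] at hζ
  obtain ⟨⟨⟨a1, a2⟩, a3, a4⟩, a5, -⟩ := hζ
  have hAx : (A : ℤ) ≤ x := by exact_mod_cast hA
  have hx0 : (0 : ℤ) ≤ x := Int.natCast_nonneg x
  have h1 : (x : ℤ) < 8 * ζ.2 ^ 2 - ζ.1 ^ 2 := by nlinarith
  have h2 : (nn ζ : ℤ) = 8 * ζ.2 ^ 2 - ζ.1 ^ 2 := by
    unfold nn N8
    rw [Int.natCast_natAbs, abs_of_neg (by linarith)]
    ring
  refine ⟨?_, ?_, ?_⟩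
  · have : (x : ℤ) < (nn ζ : ℤ) := by rw [h2]; exact h1
    exact_mod_cast this
  · have : (nn ζ : ℤ) ≤ 32 * (x : ℤ) ^ 2 := by rw [h2]; nlinarith
    exact_mod_cast this
  · have h3 : (nn ζ : ℤ) % 2 = 1 := by
      rw [h2]
      have h4 : ζ.1 ^ 2 % 2 = 1 := by
        rw [pow_two, Int.mul_emod, a5]
        norm_num
      omega
    omega

private theorem RDP_swap (P : Finset (ℤ × ℤ)) (w : ℤ × ℤ → ℝ) (F : ℕ → ℤ × ℤ → ℝ) (W : ℕ)
    (hpos : ∀ ζ ∈ P, 0 < nn ζ) :
    ∑ ζ ∈ P, w ζ * ∑ d ∈ (nn ζ).divisors with d ≤ W, F d ζ =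
      ∑ d ∈ Icc 1 W, ∑ ζ ∈ P with d ∣ nn ζ, w ζ * F d ζ := by
  have h1 : ∀ ζ ∈ P, w ζ * ∑ d ∈ (nn ζ).divisors with d ≤ W, F d ζ =
      ∑ d ∈ Icc 1 W, if d ∣ nn ζ then w ζ * F d ζ else 0 := by
    intro ζ hζ
    have h2 : (nn ζ).divisors.filter (fun d => d ≤ W) = (Icc 1 W).filter fun d => d ∣ nn ζ := by
      ext d
      rw [mem_filter, mem_filter, Nat.mem_divisors, mem_Icc]
      constructor
      · rintro ⟨⟨h3, h4⟩, h5⟩
        exact ⟨⟨Nat.pos_of_dvd_of_pos h3 (hpos ζ hζ), h5⟩, h3⟩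
      · rintro ⟨⟨h3, h4⟩, h5⟩
        exact ⟨⟨h5, (hpos ζ hζ).ne'⟩, h4⟩
    rw [h2, ← Finset.sum_filter, Finset.mul_sum]
  rw [Finset.sum_congr rfl h1, Finset.sum_comm]
  refine Finset.sum_congr rfl fun d _ => ?_
  rw [Finset.sum_filter]

private theorem RDP_cc (U V q : ℕ) : |cc U V q| ≤ Real.log q := by
  unfold cc
  refine (Finset.abs_sum_le_sum_abs _ _).trans ?_
  have h1 : ∑ m ∈ q.divisors with m ≤ U ∧ q / m ≤ V,
      |ArithmeticFunction.vonMangoldt m * (ArithmeticFunction.moebius (q / m) : ℝ)| ≤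
      ∑ m ∈ q.divisors with m ≤ U ∧ q / m ≤ V, ArithmeticFunction.vonMangoldt m := by
    refine Finset.sum_le_sum fun m _ => ?_
    rw [abs_mul, abs_of_nonneg ArithmeticFunction.vonMangoldt_nonneg]
    refine mul_le_of_le_one_right ArithmeticFunction.vonMangoldt_nonneg ?_
    have h2 : |ArithmeticFunction.moebius (q / m)| ≤ 1 := ArithmeticFunction.abs_moebius_le_one
    exact_mod_cast h2
  refine h1.trans ?_
  rw [← ArithmeticFunction.vonMangoldt_sum]
  exact Finset.sum_le_sum_of_subset_of_nonneg (Finset.filter_subset _ _)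
    fun _ _ _ => ArithmeticFunction.vonMangoldt_nonneg

private theorem RDP_cc0 (U V q : ℕ) (hq : U * V < q) : cc U V q = 0 := by
  unfold cc
  rw [Finset.filter_eq_empty_iff.2, Finset.sum_empty]
  intro m hm h
  rw [Nat.mem_divisors] at hm
  have h1 : m * (q / m) ≤ U * V := Nat.mul_le_mul h.1 h.2
  rw [Nat.mul_div_cancel' hm.1] at h1
  omega

private theorem RDP_al (V k : ℕ) : |al V k| ≤ #k.divisors := by
  unfold al
  refine (Finset.abs_sum_le_sum_abs _ _).trans ?_
  have h1 : ∀ d ∈ k.divisors.filter (fun d => V < d), |(ArithmeticFunction.moebius d : ℝ)| ≤ 1 := by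
    intro d _
    have h2 : |ArithmeticFunction.moebius d| ≤ 1 := ArithmeticFunction.abs_moebius_le_one
    exact_mod_cast h2
  refine (Finset.sum_le_card_nsmul _ _ _ h1).trans ?_
  rw [nsmul_eq_mul, mul_one]
  exact_mod_cast Finset.card_le_card (Finset.filter_subset _ _)

private theorem RDP_al0 (V k : ℕ) (hk : k ≤ V) : al V k = 0 := by
  unfold al
  rw [Finset.filter_eq_empty_iff.2, Finset.sum_empty]
  intro d hd h
  rw [Nat.mem_divisors] at hd
  have := Nat.le_of_dvd (Nat.pos_of_ne_zero hd.2) hd.1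
  omega

theorem RDP (hLMA : LMA_stmt) (hLMN : LMN_stmt) (hVGI : VGI_stmt) (hTIN : TIN_stmt)
    (hROO : ROO_stmt) (hTYN : TYN_stmt) (hSIZ : SIZ_stmt) : RDP_stmt := by
  intro η hη B
  obtain ⟨E₁, x₁, hTYN⟩ := hTYN η hη (B + 2)
  obtain ⟨E₂, x₂, hTIN⟩ := hTIN (B + 6)
  obtain ⟨C₀, hLMN⟩ := hLMN (η / 2) (by positivity) E₁
  obtain ⟨x₃, hLMN⟩ := hLMN (E₁ + E₂ + C₀ + 1) (by omega)
  obtain ⟨x₄, hLMA⟩ := hLMA E₂ (E₁ + E₂ + C₀ + 1) (by omega)
  obtain ⟨x₅, hasy⟩ := RDP_asy η hη (B + 10)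
  refine ⟨E₁ + E₂ + C₀ + 1, x₁ + x₂ + x₃ + x₄ + x₅ + 2, by omega, ?_⟩
  intro x hx r hr1 hr2 A hA1 hA2
  obtain ⟨ha1, ha2, ha3⟩ := hasy x (by omega)
  obtain ⟨hLam, hSA⟩ := hLMA x (by omega) r hr1 hr2
  have hSI := hLMN x (by omega) r hr1 hr2
  have hx2 : (2 : ℝ) ≤ x := by exact_mod_cast (by omega : 2 ≤ x)
  have hx0 : (0 : ℝ) < x := by linarith
  have hx1 : (1 : ℝ) ≤ x := by linarith
  set L := Real.log x with hLd
  have hL0 : 0 < L := by linarith
  have hL1 : 1 ≤ L := by linarith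
  set Z := Zr r with hZ
  have hpow : ∀ m n : ℕ, m ≤ n → L ^ m ≤ L ^ n := fun m n h => pow_le_pow_right₀ hL1 h
  have hAr : (A : ℝ) ≤ x := by exact_mod_cast hA2
  -- the exponent
  have hη3 : η ≤ 1 / 3 := by
    by_contra hcon
    have h1 : (x : ℝ) ^ (1 : ℝ) < (x : ℝ) ^ (2 / 3 + η) :=
      Real.rpow_lt_rpow_of_exponent_lt (by linarith) (by linarith)
    rw [Real.rpow_one] at h1
    linarith
  have hA0 : (1 : ℝ) ≤ A := by
    have h1 : (1 : ℝ) ≤ (x : ℝ) ^ (2 / 3 + η) := Real.one_le_rpow hx1 (by linarith)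
    linarith
  have hAn : 1 ≤ A := by exact_mod_cast hA0
  -- the parameter
  set y : ℝ := (x : ℝ) ^ (2 / 3 - η) with hy
  have hy1 : 1 ≤ y := Real.one_le_rpow hx1 (by linarith)
  have hy0 : 0 < y := by linarith
  have hyx : y ≤ x := by
    have h1 : y ≤ (x : ℝ) ^ (1 : ℝ) := Real.rpow_le_rpow_of_exponent_le hx1 (by linarith)
    rwa [Real.rpow_one] at h1
  set U : ℕ := ⌈y⌉₊ with hU
  have hU1 : y ≤ (U : ℝ) := Nat.le_ceil _
  have hU2 : (U : ℝ) ≤ 2 * y := by
    have h1 : (U : ℝ) < y + 1 := Nat.ceil_lt_add_one hy0.le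
    linarith
  have hU0 : 1 ≤ U := by
    have h1 : (1 : ℝ) ≤ (U : ℝ) := hy1.trans hU1
    exact_mod_cast h1
  have hUx : U ≤ x := Nat.ceil_le.2 hyx
  have hUr : (U : ℝ) ≤ x := by exact_mod_cast hUx
  have hUr1 : (1 : ℝ) ≤ U := by exact_mod_cast hU0
  have hlogU : Real.log U ≤ L := Real.log_le_log (by linarith) hUr
  have hlogU0 : 0 ≤ Real.log U := Real.log_natCast_nonneg U
  -- `U ≤ 2 A x^(-2η)`
  have hUA : (U : ℝ) * L ^ (B + 10) ≤ 2 * A := by
    have h1 : y * (x : ℝ) ^ (2 * η) = (x : ℝ) ^ (2 / 3 + η) := by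
      rw [hy, ← Real.rpow_add hx0]
      congr 1
      ring
    calc (U : ℝ) * L ^ (B + 10) ≤ (2 * y) * (x : ℝ) ^ (2 * η) :=
          mul_le_mul hU2 ha1 (by positivity) (by positivity)
      _ = 2 * (x : ℝ) ^ (2 / 3 + η) := by rw [mul_assoc, h1]
      _ ≤ 2 * A := by linarith
  have hnn : ∀ ζ ∈ PZ x A, x < nn ζ ∧ nn ζ ≤ 32 * x ^ 2 ∧ nn ζ % 2 = 1 :=
    fun ζ hζ => RDP_nn x A hA2 ζ hζ
  have hnn0 : ∀ ζ ∈ PZ x A, 0 < nn ζ := fun ζ hζ => by have := (hnn ζ hζ).1; omega
  -- type I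
  have hS1 : SAh x 1 (x / L ^ E₂) (lam x r) := by
    intro q hq1 hq2 c u hu1 hu2
    exact hSA q hq1 (hq2.trans (one_le_pow₀ hL1)) c u hu1 hu2
  have hTI : ∀ d ∈ Icc 1 U, ∀ h : ℕ, h ≤ 1 →
      |∑ ζ ∈ PZ x A with d ∣ nn ζ, lam x r ζ.2 * Real.log (nn ζ) ^ h| ≤
        (#d.divisors : ℝ) * (A * x / (d * L ^ (B + 6)) + x * L ^ 5) := by
    intro d hd h hh
    rw [mem_Icc] at hd
    have hd0 : (0 : ℝ) < d := by exact_mod_cast hd.1
    rcases Nat.even_or_odd d with hev | hod
    · have h1 : (PZ x A).filter (fun ζ => d ∣ nn ζ) = ∅ := by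
        rw [Finset.filter_eq_empty_iff]
        intro ζ hζ hdv
        have h2 := (hnn ζ hζ).2.2
        have h3 : 2 ∣ nn ζ := (even_iff_two_dvd.1 hev).trans hdv
        omega
      rw [h1, Finset.sum_empty, abs_zero]
      positivity
    · have hdx : d ≤ 32 * x ^ 2 := by
        have h1 : x ≤ x ^ 2 := Nat.le_self_pow (by norm_num) x
        omega
      have h1 := hTIN x (by omega) Z (lam x r) ((hpow _ _ (by omega)).trans hr1) hLam hS1 A hAn hA2
        d hod hdx h hh
      refine h1.trans (mul_le_mul_of_nonneg_right ?_ (by positivity))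
      exact_mod_cast hROO d hod
  set S := ∑ d ∈ Icc 1 U, (#d.divisors : ℝ) * (A * x / (d * L ^ (B + 6)) + x * L ^ 5) with hS
  have hS0 : 0 ≤ S := Finset.sum_nonneg fun d _ => by positivity
  have hSb : S ≤ 8 * (A * x) / L ^ (B + 4) := by
    obtain ⟨t1, t2⟩ := RDP_tau U
    have h1 : S = A * x / L ^ (B + 6) * ∑ d ∈ Icc 1 U, (#d.divisors : ℝ) / d +
        x * L ^ 5 * ∑ d ∈ Icc 1 U, (#d.divisors : ℝ) := by
      rw [hS, Finset.mul_sum, Finset.mul_sum, ← Finset.sum_add_distrib]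
      refine Finset.sum_congr rfl fun d hd => ?_
      rw [mem_Icc] at hd
      have hd0 : (0 : ℝ) < d := by exact_mod_cast hd.1
      field_simp
    have h2 : ∑ d ∈ Icc 1 U, (#d.divisors : ℝ) / d ≤ 4 * L ^ 2 := by
      refine t1.trans ?_
      nlinarith
    have h3 : ∑ d ∈ Icc 1 U, (#d.divisors : ℝ) ≤ U * (2 * L) :=
      t2.trans (mul_le_mul_of_nonneg_left (by linarith) (by linarith))
    have h4 : A * x / L ^ (B + 6) * ∑ d ∈ Icc 1 U, (#d.divisors : ℝ) / d ≤
        4 * (A * x) / L ^ (B + 4) := by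
      calc A * x / L ^ (B + 6) * ∑ d ∈ Icc 1 U, (#d.divisors : ℝ) / d
          ≤ A * x / L ^ (B + 6) * (4 * L ^ 2) :=
            mul_le_mul_of_nonneg_left h2 (by positivity)
        _ = 4 * (A * x) / L ^ (B + 4) := by
            have e1 : L ^ (B + 6) = L ^ (B + 4) * L ^ 2 := by rw [← pow_add]
            rw [e1]
            field_simp
    have h5 : x * L ^ 5 * ∑ d ∈ Icc 1 U, (#d.divisors : ℝ) ≤ 4 * (A * x) / L ^ (B + 4) := by
      calc x * L ^ 5 * ∑ d ∈ Icc 1 U, (#d.divisors : ℝ) ≤ x * L ^ 5 * (U * (2 * L)) :=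
            mul_le_mul_of_nonneg_left h3 (by positivity)
        _ = 2 * x * (U * L ^ (B + 10)) / L ^ (B + 4) := by
            have e1 : L ^ (B + 10) = L ^ (B + 4) * L ^ 6 := by rw [← pow_add]
            rw [e1]
            field_simp
        _ ≤ 2 * x * (2 * A) / L ^ (B + 4) := by
            refine div_le_div_of_nonneg_right (mul_le_mul_of_nonneg_left hUA (by positivity))
              (by positivity)
        _ = 4 * (A * x) / L ^ (B + 4) := by ring
    rw [h1]
    calc _ ≤ 4 * (A * x) / L ^ (B + 4) + 4 * (A * x) / L ^ (B + 4) := add_le_add h4 h5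
      _ = 8 * (A * x) / L ^ (B + 4) := by ring
  -- the four parts
  set T1 := ∑ ζ ∈ PZ x A, lam x r ζ.2 * ∑ d ∈ (nn ζ).divisors with d ≤ U,
    (ArithmeticFunction.moebius d : ℝ) * Real.log (nn ζ / d : ℝ) with hT1
  set T2 := ∑ ζ ∈ PZ x A, lam x r ζ.2 * ∑ q ∈ (nn ζ).divisors with q ≤ U, cc U U q with hT2
  set T3 := ∑ ζ ∈ PZ x A, lam x r ζ.2 * ∑ q ∈ (nn ζ).divisors with ¬ q ≤ U, cc U U q with hT3
  set T4 := ∑ ζ ∈ PZ x A, lam x r ζ.2 * ∑ m ∈ (nn ζ).divisors with U < m,
    ArithmeticFunction.vonMangoldt m * al U (nn ζ / m) with hT4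
  have hsplit : ∑ ζ ∈ PZ x A, lam x r ζ.2 * ArithmeticFunction.vonMangoldt (nn ζ) =
      T1 - (T2 + T3) + T4 := by
    rw [hT1, hT2, hT3, hT4, ← Finset.sum_add_distrib, ← Finset.sum_sub_distrib,
      ← Finset.sum_add_distrib]
    refine Finset.sum_congr rfl fun ζ hζ => ?_
    have h1 := (hnn ζ hζ).1
    have h2 := (hVGI U U (nn ζ) hU0 hU0 (by omega)).1
    have h3 := Finset.sum_filter_add_sum_filter_not (nn ζ).divisors (fun q => q ≤ U) (cc U U)
    rw [h2, ← h3]
    ring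
  have hlogd : ∀ d ∈ Icc 1 U, 0 ≤ Real.log d ∧ Real.log d ≤ L := by
    intro d hd
    rw [mem_Icc] at hd
    exact ⟨Real.log_natCast_nonneg d, Real.log_le_log (by exact_mod_cast hd.1)
      (by exact_mod_cast (hd.2.trans hUx))⟩
  have hT1b : |T1| ≤ 2 * L * S := by
    rw [hT1, RDP_swap _ _ _ _ hnn0]
    refine (Finset.abs_sum_le_sum_abs _ _).trans ?_
    rw [hS, Finset.mul_sum]
    refine Finset.sum_le_sum fun d hd => ?_
    have hd' := mem_Icc.1 hd
    have hd0 : (0 : ℝ) < d := by exact_mod_cast hd'.1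
    have h2 : ∑ ζ ∈ PZ x A with d ∣ nn ζ, lam x r ζ.2 *
        ((ArithmeticFunction.moebius d : ℝ) * Real.log (nn ζ / d : ℝ)) =
        (ArithmeticFunction.moebius d : ℝ) *
          (∑ ζ ∈ PZ x A with d ∣ nn ζ, lam x r ζ.2 * Real.log (nn ζ) ^ 1 -
            Real.log d * ∑ ζ ∈ PZ x A with d ∣ nn ζ, lam x r ζ.2 * Real.log (nn ζ) ^ 0) := by
      rw [Finset.mul_sum, ← Finset.sum_sub_distrib, Finset.mul_sum]
      refine Finset.sum_congr rfl fun ζ hζ => ?_
      have h3 := hnn0 ζ (mem_filter.1 hζ).1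
      have h4 : (0 : ℝ) < nn ζ := by exact_mod_cast h3
      rw [Real.log_div h4.ne' hd0.ne']
      ring
    rw [h2, abs_mul]
    have h5 : |(ArithmeticFunction.moebius d : ℝ)| ≤ 1 := by
      have h6 : |ArithmeticFunction.moebius d| ≤ 1 := ArithmeticFunction.abs_moebius_le_one
      exact_mod_cast h6
    have h7 := hTI d hd 1 le_rfl
    have h8 := hTI d hd 0 (by omega)
    obtain ⟨h9, h10⟩ := hlogd d hd
    set Y := (#d.divisors : ℝ) * (A * x / (d * L ^ (B + 6)) + x * L ^ 5) with hY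
    have hY0 : 0 ≤ Y := by positivity
    calc _ ≤ 1 * (|∑ ζ ∈ PZ x A with d ∣ nn ζ, lam x r ζ.2 * Real.log (nn ζ) ^ 1| +
          |Real.log d * ∑ ζ ∈ PZ x A with d ∣ nn ζ, lam x r ζ.2 * Real.log (nn ζ) ^ 0|) :=
          mul_le_mul h5 (abs_sub _ _) (abs_nonneg _) (by norm_num)
      _ ≤ 1 * (Y + L * Y) := by
          rw [abs_mul, abs_of_nonneg h9]
          refine mul_le_mul_of_nonneg_left (add_le_add h7 ?_) (by norm_num)
          exact mul_le_mul h10 h8 (abs_nonneg _) hL0.le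
      _ ≤ 2 * L * Y := by nlinarith
  have hT2b : |T2| ≤ L * S := by
    rw [hT2, RDP_swap _ (fun ζ => lam x r ζ.2) (fun q _ => cc U U q) _ hnn0]
    refine (Finset.abs_sum_le_sum_abs _ _).trans ?_
    rw [hS, Finset.mul_sum]
    refine Finset.sum_le_sum fun q hq => ?_
    rw [← Finset.sum_mul, abs_mul, mul_comm]
    have h8 := hTI q hq 0 (by omega)
    simp only [pow_zero, mul_one] at h8
    exact mul_le_mul ((RDP_cc U U q).trans (hlogd q hq).2) h8 (abs_nonneg _) hL0.le
  -- type II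
  have h32 : Real.log 32 ≤ L := by
    have h1 : Real.log 32 ≤ Real.log (Real.exp 24) := by
      refine Real.log_le_log (by norm_num) ?_
      have h2 := Real.add_one_le_exp (24 : ℝ)
      have h3 : (32 : ℝ) ≤ Real.exp 24 := by
        have h4 : Real.exp 24 = Real.exp 12 * Real.exp 12 := by
          rw [← Real.exp_add]
          norm_num
        have h5 := Real.add_one_le_exp (12 : ℝ)
        nlinarith
      exact h3
    rw [Real.log_exp] at h1
    linarith
  have hxa : (4 : ℝ) * (y * y) ≤ (x : ℝ) ^ (4 / 3 + 5 * η / 4) := by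
    have h1 : y * y = (x : ℝ) ^ (4 / 3 - 2 * η) := by
      rw [hy, ← Real.rpow_add hx0]
      congr 1
      ring
    rw [h1]
    calc 4 * (x : ℝ) ^ (4 / 3 - 2 * η) ≤ (x : ℝ) ^ (η / 4) * (x : ℝ) ^ (4 / 3 - 2 * η) :=
          mul_le_mul_of_nonneg_right (by linarith) (by positivity)
      _ = (x : ℝ) ^ (η / 4 + (4 / 3 - 2 * η)) := by rw [← Real.rpow_add hx0]
      _ ≤ (x : ℝ) ^ (4 / 3 + 5 * η / 4) := Real.rpow_le_rpow_of_exponent_le hx1 (by linarith)
  have hT3b : |T3| ≤ A * x / L ^ (B + 2) := by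
    have h1 := hTYN x (by omega) Z (lam x r) ((hpow _ _ (by omega)).trans hr1) hLam hSI A hA1 hA2
      (fun m => if U < m then cc U U m else 0) (fun k => if k = 0 then 0 else 1) (by
        intro m
        split_ifs with hm
        · by_cases hm2 : U * U < m
          · rw [RDP_cc0 U U m hm2, abs_zero]
            positivity
          · refine (RDP_cc U U m).trans ?_
            have h2 : Real.log m ≤ Real.log ((U : ℝ) * U) := by
              refine Real.log_le_log (by exact_mod_cast (by omega : 0 < m)) ?_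
              exact_mod_cast (not_lt.1 hm2)
            rw [Real.log_mul (by linarith) (by linarith)] at h2
            linarith
        · rw [abs_zero]
          positivity) (by
        intro k
        split_ifs with hk
        · rw [abs_zero]
          positivity
        · rw [abs_one]
          have h2 : 1 ≤ #k.divisors := Finset.card_pos.2 ⟨1, Nat.mem_divisors.2 ⟨one_dvd _, hk⟩⟩
          exact_mod_cast h2) (by
        intro m k _ hne
        split_ifs at hne with hm hk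
        · simp at hne
        · have hcc : cc U U m ≠ 0 := by
            intro h
            rw [h, zero_mul] at hne
            exact hne rfl
          have hm2 : ¬ U * U < m := fun h => hcc (RDP_cc0 U U m h)
          have hm3 : (m : ℝ) ≤ U * U := by exact_mod_cast (not_lt.1 hm2)
          have hm4 : (U : ℝ) ≤ m := by exact_mod_cast hm.le
          refine ⟨hU1.trans hm4, hm3.trans (le_trans ?_ hxa)⟩
          nlinarith
        · simp at hne
        · simp at hne)
    have h2 : T3 = ∑ ζ ∈ PZ x A, lam x r ζ.2 * ∑ m ∈ (nn ζ).divisors,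
        (if U < m then cc U U m else 0) * (if nn ζ / m = 0 then (0 : ℝ) else 1) := by
      rw [hT3]
      refine Finset.sum_congr rfl fun ζ hζ => ?_
      rw [Finset.sum_filter]
      congr 1
      refine Finset.sum_congr rfl fun m hm => ?_
      rw [Nat.mem_divisors] at hm
      have h3 : nn ζ / m ≠ 0 := by
        have h4 := Nat.div_pos (Nat.le_of_dvd (hnn0 ζ hζ) hm.1)
          (Nat.pos_of_dvd_of_pos hm.1 (hnn0 ζ hζ))
        omega
      rw [if_neg h3, mul_one]
      by_cases h5 : m ≤ U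
      · rw [if_neg (not_not.2 h5), if_neg (by omega)]
      · rw [if_pos h5, if_pos (by omega)]
    rw [h2]
    exact h1
  have hT4b : |T4| ≤ A * x / L ^ (B + 2) := by
    have h1 := hTYN x (by omega) Z (lam x r) ((hpow _ _ (by omega)).trans hr1) hLam hSI A hA1 hA2
      (fun m => if U < m ∧ m ≤ 32 * x ^ 2 then ArithmeticFunction.vonMangoldt m else 0)
      (fun k => al U k) (by
        intro m
        split_ifs with hm
        · rw [abs_of_nonneg ArithmeticFunction.vonMangoldt_nonneg]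
          refine (ArithmeticFunction.vonMangoldt_le_log).trans ?_
          have h2 : Real.log m ≤ Real.log (32 * (x : ℝ) ^ 2) := by
            refine Real.log_le_log (by exact_mod_cast (by omega : 0 < m)) ?_
            exact_mod_cast hm.2
          rw [Real.log_mul (by norm_num) (by positivity), Real.log_pow] at h2
          push_cast at h2
          linarith
        · rw [abs_zero]
          positivity) (fun k => RDP_al U k) (by
        intro m k hmk hne
        split_ifs at hne with hm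
        · have hal : al U k ≠ 0 := by
            intro h
            rw [h, mul_zero] at hne
            exact hne rfl
          have hk : ¬ k ≤ U := fun h => hal (RDP_al0 U k h)
          have hm4 : (U : ℝ) ≤ m := by exact_mod_cast hm.1.le
          refine ⟨hU1.trans hm4, ?_⟩
          have hk4 : (U : ℝ) ≤ k := by exact_mod_cast (not_le.1 hk).le
          have hmk' : (m : ℝ) * k ≤ 32 * (x : ℝ) ^ 2 := by exact_mod_cast hmk
          have h2 : (m : ℝ) * y ≤ 32 * (x : ℝ) ^ 2 := by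
            refine le_trans ?_ hmk'
            exact mul_le_mul_of_nonneg_left (hU1.trans hk4) (Nat.cast_nonneg m)
          have h3 : (x : ℝ) ^ 2 = y * (x : ℝ) ^ (4 / 3 + η) := by
            rw [hy, ← Real.rpow_add hx0, ← Real.rpow_natCast]
            congr 1
            push_cast
            ring
          have h4 : (m : ℝ) ≤ 32 * (x : ℝ) ^ (4 / 3 + η) := by
            rw [h3] at h2
            have h5 : (m : ℝ) * y ≤ (32 * (x : ℝ) ^ (4 / 3 + η)) * y := by
              calc (m : ℝ) * y ≤ 32 * (y * (x : ℝ) ^ (4 / 3 + η)) := h2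
                _ = (32 * (x : ℝ) ^ (4 / 3 + η)) * y := by ring
            exact le_of_mul_le_mul_right h5 hy0
          calc (m : ℝ) ≤ 32 * (x : ℝ) ^ (4 / 3 + η) := h4
            _ ≤ (x : ℝ) ^ (η / 4) * (x : ℝ) ^ (4 / 3 + η) :=
                mul_le_mul_of_nonneg_right ha2 (by positivity)
            _ = (x : ℝ) ^ (4 / 3 + 5 * η / 4) := by
                rw [← Real.rpow_add hx0]
                congr 1
                ring
        · simp at hne)
    have h2 : T4 = ∑ ζ ∈ PZ x A, lam x r ζ.2 * ∑ m ∈ (nn ζ).divisors,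
        (if U < m ∧ m ≤ 32 * x ^ 2 then ArithmeticFunction.vonMangoldt m else 0) *
          al U (nn ζ / m) := by
      rw [hT4]
      refine Finset.sum_congr rfl fun ζ hζ => ?_
      rw [Finset.sum_filter]
      congr 1
      refine Finset.sum_congr rfl fun m hm => ?_
      rw [Nat.mem_divisors] at hm
      have h3 : m ≤ 32 * x ^ 2 := (Nat.le_of_dvd (hnn0 ζ hζ) hm.1).trans (hnn ζ hζ).2.1
      by_cases h5 : U < m
      · rw [if_pos h5, if_pos ⟨h5, h3⟩]
      · rw [if_neg h5, if_neg (fun h => h5 h.1), zero_mul]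
    rw [h2]
    exact h1
  -- conclusion
  have hAx0 : 0 ≤ (A : ℝ) * x := by positivity
  have hLS : 3 * L * S ≤ (A : ℝ) * x / L ^ (B + 2) := by
    calc 3 * L * S ≤ 3 * L * (8 * (A * x) / L ^ (B + 4)) :=
          mul_le_mul_of_nonneg_left hSb (by positivity)
      _ = (24 / L) * ((A : ℝ) * x / L ^ (B + 2)) := by
          have e1 : L ^ (B + 4) = L ^ (B + 2) * L ^ 2 := by rw [← pow_add]
          rw [e1]
          field_simp
          ring
      _ ≤ 1 * ((A : ℝ) * x / L ^ (B + 2)) := by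
          refine mul_le_mul_of_nonneg_right ?_ (by positivity)
          rw [div_le_one hL0]
          exact ha3
      _ = (A : ℝ) * x / L ^ (B + 2) := one_mul _
  have hfin : 3 * ((A : ℝ) * x / L ^ (B + 2)) ≤ (A : ℝ) * x / L ^ B := by
    have e1 : 3 * ((A : ℝ) * x / L ^ (B + 2)) = (3 / L ^ 2) * ((A : ℝ) * x / L ^ B) := by
      have e2 : L ^ (B + 2) = L ^ B * L ^ 2 := by rw [← pow_add]
      rw [e2]
      field_simp
    rw [e1]
    refine mul_le_of_le_one_left (by positivity) ?_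
    rw [div_le_one (by positivity)]
    nlinarith
  rw [hsplit]
  have h1 : |T1 - (T2 + T3) + T4| ≤ |T1| + (|T2| + |T3|) + |T4| := by
    calc |T1 - (T2 + T3) + T4| ≤ |T1 - (T2 + T3)| + |T4| := abs_add_le _ _
      _ ≤ (|T1| + |T2 + T3|) + |T4| := by linarith [abs_sub T1 (T2 + T3)]
      _ ≤ _ := by linarith [abs_add_le T2 T3]
  have h2 : 3 * L * S = 2 * L * S + L * S := by ring
  linarith

end Pool.Agent.FJ
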